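import Mathlib
import Pool.Agent.H97.Lee3

namespace Pool.Agent.Results.MP_e733ef_an.Counter

open Set

/-- Frechet differentiability of `f` at `x₀`: uniform on every bounded set. -/
def FrechetAt {E : Type} [AddCommGroup E] [Module ℝ E] [TopologicalSpace E] (f : E → ℝ)
    (x₀ : E) : Prop :=
  ∃ φ : E →L[ℝ] ℝ, ∀ B : Set E, Bornology.IsVonNBounded ℝ B → ∀ ε > (0:ℝ), ∃ δ > (0:ℝ),
    ∀ t : ℝ, 0 < |t| → |t| < δ → ∀ x ∈ B, |(f (x₀ + t • x) - f x₀) / t - φ x| < ε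

/-- Gateaux differentiability of `f` at `x₀`: the same with singletons. -/
def GateauxAt {E : Type} [AddCommGroup E] [Module ℝ E] [TopologicalSpace E] (f : E → ℝ)
    (x₀ : E) : Prop :=
  ∃ φ : E →L[ℝ] ℝ, ∀ x : E, ∀ ε > (0:ℝ), ∃ δ > (0:ℝ),
    ∀ t : ℝ, 0 < |t| → |t| < δ → |(f (x₀ + t • x) - f x₀) / t - φ x| < ε

/-- Asplund space. -/
def Asplund (E : Type) [AddCommGroup E] [Module ℝ E] [TopologicalSpace E] : Prop :=
  ∀ D : Set E, D.Nonempty → IsOpen D → Convex ℝ D → ∀ f : E → ℝ, ConvexOn ℝ D f →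
    ContinuousOn f D → ∃ G ⊆ D, IsGδ G ∧ D ⊆ closure G ∧ ∀ x ∈ G, FrechetAt f x

theorem result : ∃ (E : Type) (_ : AddCommGroup E) (_ : Module ℝ E) (_ : TopologicalSpace E)
    (_ : IsTopologicalAddGroup E) (_ : ContinuousSMul ℝ E),
    T2Space E ∧ LocallyConvexSpace ℝ E ∧ BaireSpace E ∧
    TopologicalSpace.SeparableSpace (StrongDual ℝ E) ∧
    (∃ f : E → ℝ, ConvexOn ℝ univ f ∧ Continuous f ∧ ∀ x, ¬ GateauxAt f x ∧ ¬ FrechetAt f x) ∧
    ¬ Asplund E := by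
  obtain ⟨E, h1, h2, h3⟩ := Pool.Agent.H97.Lee.main
  have hc : ConvexOn ℝ univ fun z : E => ‖z.1.1‖ :=
    ⟨convex_univ, fun x _ y _ a b ha hb hab =>
      (convexOn_univ_norm (E := Pool.Agent.H97.Lee.L1)).2 (mem_univ x.1.1) (mem_univ y.1.1) ha hb hab⟩
  have hk : Continuous fun z : E => ‖z.1.1‖ := by fun_prop
  have hG : ∀ x, ¬ GateauxAt (fun z : E => ‖z.1.1‖) x := by
    rintro x ⟨φ, hφ⟩
    obtain ⟨u, hu⟩ := h3 x
    obtain ⟨δ, hδ, h⟩ := hφ u 1 one_pos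
    have hd : (0:ℝ) < δ / 2 := half_pos hδ
    have a1 := h (δ / 2) (by rwa [abs_of_pos hd]) (by rw [abs_of_pos hd]; linarith)
    have a2 := h (-(δ / 2)) (by rwa [abs_neg, abs_of_pos hd])
      (by rw [abs_neg, abs_of_pos hd]; linarith)
    simp only [hu, add_sub_cancel_left, abs_neg, abs_of_pos hd, div_neg, div_self hd.ne'] at a1 a2
    linarith [(abs_lt.1 a1).2, (abs_lt.1 a2).1]
  have hF : ∀ x, ¬ FrechetAt (fun z : E => ‖z.1.1‖) x := by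
    rintro x ⟨φ, hφ⟩
    refine hG x ⟨φ, fun y ε hε => ?_⟩
    obtain ⟨δ, hδ, h⟩ := hφ {y} (Bornology.isVonNBounded_singleton y) ε hε
    exact ⟨δ, hδ, fun t a b => h t a b y rfl⟩
  refine ⟨E, inferInstance, inferInstance, inferInstance, inferInstance, inferInstance,
    inferInstance, inferInstance, h1, h2, ⟨_, hc, hk, fun x => ⟨hG x, hF x⟩⟩, fun hA => ?_⟩
  obtain ⟨G, -, -, a, b⟩ := hA univ univ_nonempty isOpen_univ convex_univ _ hc hk.continuousOn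
  obtain ⟨x, hx⟩ := closure_nonempty_iff.1 ⟨0, a (mem_univ 0)⟩
  exact hF x (b x hx)

end Pool.Agent.Results.MP_e733ef_an.Counter
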